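import Pool.Agent.Work.MP_1e13ac_Bis_h63.Sem

/-!
# Block GADG: soundness of the gadget check
-/

set_option autoImplicit false

namespace Pool.Agent.Work.MP_1e13ac_Bis.h63

open Pool.Agent.Work.MP_1e13ac_Bis

open Classical Finset

noncomputable section

variable {V : Type} [Fintype V] {G : SimpleGraph V} {v : V} {r : ℕ} {P : List (List ℕ)}
  {φ : ℕ → V}

/-- the image of an index set -/
def img (φ : ℕ → V) (m S : ℕ) : Finset V :=
  ((Finset.range m).filter (fun i => tb S i = true)).image φ

/-- the colouring of the image -/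
def clr (φ : ℕ → V) (m c : ℕ) (x : V) : Bool :=
  decide (∃ i, i < m ∧ φ i = x ∧ tb c i = true)

omit [Fintype V] in
theorem mem_img (m S : ℕ) (x : V) : x ∈ img φ m S ↔ ∃ i < m, tb S i = true ∧ φ i = x := by
  unfold img
  rw [Finset.mem_image]
  constructor
  · rintro ⟨i, hi, rfl⟩
    rw [Finset.mem_filter, Finset.mem_range] at hi
    exact ⟨i, hi.1, hi.2, rfl⟩
  · rintro ⟨i, hi, hS, rfl⟩
    exact ⟨i, by rw [Finset.mem_filter, Finset.mem_range]; exact ⟨hi, hS⟩, rfl⟩

theorem img_mem (hO : Occ G v r P φ) (S i : ℕ) (hi : i < P.length) :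
    φ i ∈ img φ P.length S ↔ tb S i = true := by
  rw [mem_img]
  constructor
  · rintro ⟨j, hj, hS, he⟩
    have := hO.inj j hj i hi he
    rw [← this]
    exact hS
  · intro h
    exact ⟨i, hi, h, rfl⟩

theorem clr_apply (hO : Occ G v r P φ) (c i : ℕ) (hi : i < P.length) :
    clr φ P.length c (φ i) = tb c i := by
  unfold clr
  cases h : tb c i
  · rw [decide_eq_false_iff_not]
    rintro ⟨j, hj, he, hc⟩
    have := hO.inj j hj i hi he
    rw [this, h] at hc
    exact absurd hc (by simp)
  · rw [decide_eq_true_iff]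
    exact ⟨i, hi, rfl, h⟩

theorem gl_lt (hwf : wf P = true) (i j : ℕ) (hi : i < P.length) (hj : j ∈ gl P i) :
    j < P.length := (((wf_iff P).1 hwf i hi).2.2 j hj).1

theorem mono_lt (hwf : wf P = true) (S c i j : ℕ) (hi : i < P.length)
    (hj : j ∈ gl (mono S c 0 P) i) : j < P.length ∧ tb S i = true ∧ tb S j = true := by
  rw [gl_mono S c 0 P i hi, Nat.zero_add] at hj
  by_cases hS : tb S i = true
  · rw [if_pos hS, mem_filtC] at hj
    exact ⟨gl_lt hwf i j hi hj.1, hS, hj.2.1⟩
  · rw [if_neg hS] at hj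
    exact absurd hj (by simp)

theorem MA_iff (_hwf : wf P = true) (hO : Occ G v r P φ) (S c i j : ℕ) (hi : i < P.length)
    (hj : j < P.length) (hSi : tb S i = true) (hSj : tb S j = true) :
    MA G (clr φ P.length c) (φ i) (φ j) ↔ j ∈ gl (mono S c 0 P) i := by
  unfold MA
  rw [clr_apply hO c i hi, clr_apply hO c j hj, hO.adj i hi j hj, gl_mono0 S c P i hi hSi,
    mem_filtC]
  constructor
  · rintro ⟨h1, h2⟩
    exact ⟨h1, hSj, h2.symm⟩
  · rintro ⟨h1, _, h2⟩
    exact ⟨h1, h2.symm⟩

theorem restr_card (hwf : wf P = true) (hO : Occ G v r P φ) (S i : ℕ) (hi : i < P.length)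
    (hSi : tb S i = true) :
    ((nbs G (φ i)).filter fun y => y ∈ img φ P.length S).card = (gl (restr S 0 P) i).length := by
  rw [gl_restr0 S P i hi hSi]
  have hnd : (filtS S (gl P i)).Nodup := nodup_filtS S _ ((wf_iff P).1 hwf i hi).1
  rw [← List.toFinset_card_of_nodup hnd]
  have : ((nbs G (φ i)).filter fun y => y ∈ img φ P.length S)
      = (filtS S (gl P i)).toFinset.image φ := by
    ext y
    rw [Finset.mem_filter, nbs, Finset.mem_filter, Finset.mem_image, mem_img]
    constructor
    · rintro ⟨⟨_, h1⟩, j, hj, hS, rfl⟩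
      refine ⟨j, ?_, rfl⟩
      rw [List.mem_toFinset, mem_filtS]
      exact ⟨(hO.adj i hi j hj).1 h1, hS⟩
    · rintro ⟨j, hj, rfl⟩
      rw [List.mem_toFinset, mem_filtS] at hj
      have hjl := gl_lt hwf i j hi hj.1
      exact ⟨⟨Finset.mem_univ _, (hO.adj i hi j hjl).2 hj.1⟩, j, hjl, hj.2, rfl⟩
  rw [this]
  refine Finset.card_image_of_injOn ?_
  intro a ha b hb hab
  have ha' : a ∈ filtS S (gl P i) := by simpa using ha
  have hb' : b ∈ filtS S (gl P i) := by simpa using hb
  rw [mem_filtS] at ha' hb'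
  exact hO.inj a (gl_lt hwf i a hi ha'.1) b (gl_lt hwf i b hi hb'.1) hab

/-- a vertex with three listed neighbours in `S` has all its neighbours in the image -/
theorem full_nb (hG : Cub G) (hwf : wf P = true) (hO : Occ G v r P φ) (S i : ℕ)
    (hi : i < P.length) (hSi : tb S i = true) (h3 : (gl (restr S 0 P) i).length = 3) (w : V)
    (hw : G.Adj (φ i) w) : w ∈ img φ P.length S := by
  have h1 := restr_card hwf hO S i hi hSi
  rw [h3, ← hG (φ i)] at h1
  have h2 := Finset.eq_of_subset_of_card_le (Finset.filter_subset _ _) h1.ge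
  have h4 : w ∈ nbs G (φ i) := by
    rw [nbs, Finset.mem_filter]
    exact ⟨Finset.mem_univ _, hw⟩
  rw [← h2, Finset.mem_filter] at h4
  exact h4.2

/-- the content of `chkPre` -/
theorem chkPre_iff (S : ℕ) (M : List (List ℕ))
    (h : chkPre S (restr S 0 P) M = true) (i : ℕ) (hi : i < P.length)
    (hS : tb S i = true) : (gl M i).length < (gl (restr S 0 P) i).length ∧
      ((gl (restr S 0 P) i).length = 3 ∨ ∀ j ∈ gl M i, (gl (restr S 0 P) j).length = 3 ∧
        ∀ k ∈ gl M j, k = i) ∧
      ∀ j ∈ gl M i, ∀ k ∈ gl M j, k = i ∨ ∀ l ∈ gl M k, l = j ∨ ∀ p ∈ gl M l, p = k := by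
  unfold chkPre at h
  rw [allIdx_zero, length_restr] at h
  have h1 := h i hi
  simp only [Bool.or_eq_true, Bool.and_eq_true, List.all_eq_true, Nat.beq_eq, Nat.blt_eq, hS,
    Bool.not_true, Bool.false_eq_true, false_or] at h1
  exact ⟨h1.1.1, h1.1.2, h1.2⟩

theorem pre_of (hG : Cub G) (hwf : wf P = true) (hO : Occ G v r P φ) (S c : ℕ)
    (h : chkPre S (restr S 0 P) (mono S c 0 P) = true) :
    Pre G (img φ P.length S) (clr φ P.length c) := by
  have hc := chkPre_iff (P := P) S (mono S c 0 P) h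
  refine ⟨?_, ?_, ?_⟩
  · intro a ha
    rw [mem_img] at ha
    obtain ⟨i, hi, hS, rfl⟩ := ha
    have h1 := (hc i hi hS).1
    rw [gl_mono0 S c P i hi hS, gl_restr0 S P i hi hS] at h1
    by_contra hcon
    push Not at hcon
    have hsub : filtS S (gl P i) ⊆ filtC S c (tb c i) (gl P i) := by
      intro j hj
      rw [mem_filtS] at hj
      rw [mem_filtC]
      refine ⟨hj.1, hj.2, ?_⟩
      have hjl := gl_lt hwf i j hi hj.1
      have := hcon (φ j) ((img_mem hO S j hjl).2 hj.2) ((hO.adj i hi j hjl).2 hj.1)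
      rw [clr_apply hO c i hi, clr_apply hO c j hjl] at this
      exact this
    have := (List.subperm_of_subset (nodup_filtS S _ ((wf_iff P).1 hwf i hi).1) hsub).length_le
    omega
  · intro a₁ h1 a₂ h2 a₃ h3 a₄ h4 a₅ h5 m12 m23 m34 m45 n13 n24 n35
    rw [mem_img] at h1 h2 h3 h4 h5
    obtain ⟨i₁, hi1, hs1, rfl⟩ := h1
    obtain ⟨i₂, hi2, hs2, rfl⟩ := h2
    obtain ⟨i₃, hi3, hs3, rfl⟩ := h3
    obtain ⟨i₄, hi4, hs4, rfl⟩ := h4
    obtain ⟨i₅, hi5, hs5, rfl⟩ := h5
    rw [MA_iff hwf hO S c _ _ hi1 hi2 hs1 hs2] at m12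
    rw [MA_iff hwf hO S c _ _ hi2 hi3 hs2 hs3] at m23
    rw [MA_iff hwf hO S c _ _ hi3 hi4 hs3 hs4] at m34
    rw [MA_iff hwf hO S c _ _ hi4 hi5 hs4 hs5] at m45
    rcases (hc i₁ hi1 hs1).2.2 i₂ m12 i₃ m23 with h | h
    · exact n13 (by rw [h])
    · rcases h i₄ m34 with h' | h'
      · exact n24 (by rw [h'])
      · exact n35 (by rw [h' i₅ m45])
  · intro a ha a' ha' hM w hw haw
    rw [mem_img] at ha ha'
    obtain ⟨i, hi, hs, rfl⟩ := ha
    obtain ⟨j, hj, hsj, rfl⟩ := ha'
    rw [MA_iff hwf hO S c _ _ hi hj hs hsj] at hM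
    have h3 : (gl (restr S 0 P) i).length ≠ 3 := by
      intro h3
      exact hw (full_nb hG hwf hO S i hi hs h3 w haw)
    have h4 := ((hc i hi hs).2.1.resolve_left h3) j hM
    refine ⟨fun w' hw' haw' => hw' (full_nb hG hwf hO S j hj hsj h4.1 w' haw'), ?_⟩
    intro a'' ha'' hM'
    rw [mem_img] at ha''
    obtain ⟨k, hk, hsk, rfl⟩ := ha''
    rw [MA_iff hwf hO S c _ _ hj hk hsj hsk] at hM'
    rw [h4.2 k hM']

/-! ## Statistics -/

/-- the three summands -/
def f2 (c : ℕ) (i : ℕ) (l : List ℕ) : ℤ := if l.length = 2 then sg (tb c i) else 0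

def f3 (c : ℕ) (M : List (List ℕ)) (i : ℕ) (l : List ℕ) : ℤ :=
  if l.length = 2 ∧ ∃ j ∈ l, (gl M j).length = 2 then sg (tb c i) else 0

theorem stat_eq (U c : ℕ) (M : List (List ℕ)) (k : ℕ) (L : List (List ℕ)) :
    stat U c M k L =
      (∑ i ∈ Finset.range L.length, if tb U (k + i) = true then sg (tb c (k + i)) else 0,
       ∑ i ∈ Finset.range L.length, if tb U (k + i) = true then f2 c (k + i) (gl L i) else 0,
       ∑ i ∈ Finset.range L.length, if tb U (k + i) = true then f3 c M (k + i) (gl L i) else 0)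
       := by
  induction L generalizing k with
  | nil => simp [stat]
  | cons l t ih =>
    have hs : ∀ F : ℕ → List ℕ → ℤ,
        (∑ i ∈ Finset.range (l :: t).length, F (k + i) (gl (l :: t) i))
          = (∑ i ∈ Finset.range t.length, F (k + 1 + i) (gl t i)) + F k l := by
      intro F
      rw [List.length_cons, Finset.sum_range_succ']
      congr 1
      refine Finset.sum_congr rfl fun i _ => ?_
      rw [show k + (i + 1) = k + 1 + i by omega]
      rfl
    have hf2 : (if (Nat.beq l.length 2) = true then (if tb c k = true then (1 : ℤ) else -1)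
        else 0) = f2 c k l := by
      unfold f2 sg
      simp only [Nat.beq_eq]
    have hf3 : (if (Nat.beq l.length 2 && l.any (fun j => Nat.beq (gl M j).length 2)) = true
        then (if tb c k = true then (1 : ℤ) else -1) else 0) = f3 c M k l := by
      unfold f3 sg
      simp only [Bool.and_eq_true, List.any_eq_true, Nat.beq_eq]
    rw [stat]
    by_cases hU : tb U k = true
    · rw [if_pos hU]
      dsimp only
      rw [hf2, hf3, ih (k + 1)]
      refine congrArg₂ Prod.mk ?_ (congrArg₂ Prod.mk ?_ ?_)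
      · refine Eq.trans ?_ (hs (fun i _ => if tb U i = true then sg (tb c i) else 0)).symm
        rw [add_comm]
        congr 1
        exact (if_pos hU).symm
      · refine Eq.trans ?_ (hs (fun i l => if tb U i = true then f2 c i l else 0)).symm
        rw [add_comm]
        congr 1
        exact (if_pos hU).symm
      · refine Eq.trans ?_ (hs (fun i l => if tb U i = true then f3 c M i l else 0)).symm
        rw [add_comm]
        congr 1
        exact (if_pos hU).symm
    · rw [if_neg hU, ih (k + 1)]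
      refine congrArg₂ Prod.mk ?_ (congrArg₂ Prod.mk ?_ ?_)
      · refine Eq.trans ?_ (hs (fun i _ => if tb U i = true then sg (tb c i) else 0)).symm
        rw [if_neg hU, add_zero]
      · refine Eq.trans ?_ (hs (fun i l => if tb U i = true then f2 c i l else 0)).symm
        rw [if_neg hU, add_zero]
      · refine Eq.trans ?_ (hs (fun i l => if tb U i = true then f3 c M i l else 0)).symm
        rw [if_neg hU, add_zero]

theorem stat_zero (U c : ℕ) (M L : List (List ℕ)) :
    stat U c M 0 L =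
      (∑ i ∈ Finset.range L.length, if tb U i = true then sg (tb c i) else 0,
       ∑ i ∈ Finset.range L.length, if tb U i = true then f2 c i (gl L i) else 0,
       ∑ i ∈ Finset.range L.length, if tb U i = true then f3 c M i (gl L i) else 0) := by
  rw [stat_eq]
  simp only [Nat.zero_add]

theorem sum_img (hO : Occ G v r P φ) (U : ℕ) (f : V → ℤ) :
    ∑ x ∈ img φ P.length U, f x = ∑ i ∈ Finset.range P.length, if tb U i = true then f (φ i)
      else 0 := by
  unfold img
  rw [Finset.sum_image, Finset.sum_filter]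
  intro a ha b hb hab
  have ha' : a < P.length := Finset.mem_range.1 (Finset.mem_filter.1 ha).1
  have hb' : b < P.length := Finset.mem_range.1 (Finset.mem_filter.1 hb).1
  exact hO.inj a ha' b hb' hab

/-- the monochromatic degree of a vertex all of whose neighbours are in the image -/
theorem md_eq (hwf : wf P = true) (hO : Occ G v r P φ) (S c i : ℕ)
    (hi : i < P.length) (hSi : tb S i = true)
    (hfull : ∀ w, G.Adj (φ i) w → w ∈ img φ P.length S) :
    md G (clr φ P.length c) (φ i) = (gl (mono S c 0 P) i).length := by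
  unfold md
  have hnd : (gl (mono S c 0 P) i).Nodup := by
    rw [gl_mono0 S c P i hi hSi]
    exact nodup_filtC S c _ _ ((wf_iff P).1 hwf i hi).1
  rw [← List.toFinset_card_of_nodup hnd]
  have : (univ.filter fun y => MA G (clr φ P.length c) (φ i) y)
      = (gl (mono S c 0 P) i).toFinset.image φ := by
    ext y
    rw [Finset.mem_filter, Finset.mem_image]
    constructor
    · rintro ⟨_, h1⟩
      have h2 := hfull y h1.1
      rw [mem_img] at h2
      obtain ⟨j, hj, hS, rfl⟩ := h2
      refine ⟨j, ?_, rfl⟩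
      rw [List.mem_toFinset]
      exact (MA_iff hwf hO S c i j hi hj hSi hS).1 h1
    · rintro ⟨j, hj, rfl⟩
      rw [List.mem_toFinset] at hj
      have hjl := mono_lt hwf S c i j hi hj
      exact ⟨Finset.mem_univ _, (MA_iff hwf hO S c i j hi hjl.1 hSi hjl.2.2).2 hj⟩
  rw [this]
  refine Finset.card_image_of_injOn ?_
  intro a ha b hb hab
  have ha' : a ∈ gl (mono S c 0 P) i := by simpa using ha
  have hb' : b ∈ gl (mono S c 0 P) i := by simpa using hb
  exact hO.inj a (mono_lt hwf S c i a hi ha').1 b (mono_lt hwf S c i b hi hb').1 hab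

theorem st_img (hwf : wf P = true) (hO : Occ G v r P φ) (S U c : ℕ)
    (hUS : ∀ i, tb U i = true → tb S i = true)
    (hfull : ∀ i < P.length, tb U i = true → ∀ w, G.Adj (φ i) w → w ∈ img φ P.length S)
    (hmU : ∀ i < P.length, tb U i = true → ∀ j ∈ gl (mono S c 0 P) i, tb U j = true) :
    st G (clr φ P.length c) (img φ P.length U)
      = stat U c (mono S c 0 P) 0 (mono S c 0 P) := by
  have hmd : ∀ i < P.length, tb U i = true →
      md G (clr φ P.length c) (φ i) = (gl (mono S c 0 P) i).length := fun i hi hU =>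
    md_eq hwf hO S c i hi (hUS i hU) (hfull i hi hU)
  rw [stat_zero, length_mono]
  unfold st
  rw [sum_img hO, sum_img hO, sum_img hO]
  refine congrArg₂ Prod.mk ?_ (congrArg₂ Prod.mk ?_ ?_)
  · refine Finset.sum_congr rfl fun i hi => ?_
    rw [Finset.mem_range] at hi
    rw [clr_apply hO c i hi]
  · refine Finset.sum_congr rfl fun i hi => ?_
    rw [Finset.mem_range] at hi
    by_cases hU : tb U i = true
    · rw [if_pos hU, if_pos hU]
      unfold locP f2
      rw [hmd i hi hU, clr_apply hO c i hi]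
    · rw [if_neg hU, if_neg hU]
  · refine Finset.sum_congr rfl fun i hi => ?_
    rw [Finset.mem_range] at hi
    by_cases hU : tb U i = true
    · rw [if_pos hU, if_pos hU]
      unfold locQ f3
      rw [hmd i hi hU, clr_apply hO c i hi]
      refine if_congr (and_congr Iff.rfl ?_) rfl rfl
      constructor
      · rintro ⟨y, hy, h2⟩
        have h3 := hfull i hi hU y hy.1
        rw [mem_img] at h3
        obtain ⟨j, hj, hSj, rfl⟩ := h3
        have h4 := (MA_iff hwf hO S c i j hi hj (hUS i hU) hSj).1 hy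
        exact ⟨j, h4, by rw [← hmd j hj (hmU i hi hU j h4)]; exact h2⟩
      · rintro ⟨j, hj, h2⟩
        have hjl := mono_lt hwf S c i j hi hj
        exact ⟨φ j, (MA_iff hwf hO S c i j hi hjl.1 (hUS i hU) hjl.2.2).2 hj, by
          rw [hmd j hjl.1 (hmU i hi hU j hj)]; exact h2⟩
    · rw [if_neg hU, if_neg hU]

theorem stmt_GADG : Stmt_GADG := by
  intro P S U c1 c2 hwf h hlen V _ G hG v φ hO
  unfold chkGdt at h
  rw [Bool.and_eq_true, Bool.and_eq_true, Bool.and_eq_true, Bool.and_eq_true] at h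
  obtain ⟨⟨⟨⟨hUS, hx⟩, hall⟩, hp1⟩, hp2⟩ := h
  have hUS' : U &&& S = U := Nat.eq_of_beq_eq_true hUS
  have hx' : (c1 ^^^ c2) &&& U = c1 ^^^ c2 := Nat.eq_of_beq_eq_true hx
  have hsub : ∀ i, tb U i = true → tb S i = true := by
    intro i hi
    rw [tb_eq] at hi ⊢
    rw [← hUS', Nat.testBit_and, Bool.and_eq_true] at hi
    exact hi.2
  have hagr : ∀ i, tb U i = false → tb c1 i = tb c2 i := by
    intro i hi
    rw [tb_eq] at hi
    have h1 : (c1 ^^^ c2).testBit i = false := by
      rw [← hx', Nat.testBit_and, hi, Bool.and_false]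
    rw [Nat.testBit_xor] at h1
    rw [tb_eq, tb_eq]
    cases ha : c1.testBit i <;> cases hb : c2.testBit i <;> simp_all
  rw [allIdx_zero, length_restr] at hall
  have hU : ∀ i < P.length, tb U i = true → (gl (restr S 0 P) i).length = 3 ∧
      (∀ j ∈ gl (mono S c1 0 P) i, tb U j = true) ∧
      (∀ j ∈ gl (mono S c2 0 P) i, tb U j = true) := by
    intro i hi hUi
    have h1 := hall i hi
    simp only [Bool.or_eq_true, Bool.and_eq_true, List.all_eq_true, Nat.beq_eq, hUi,
      Bool.not_true, Bool.false_eq_true, false_or] at h1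
    first
      | exact ⟨h1.1, h1.2.1, h1.2.2⟩
      | exact ⟨h1.1.1, h1.1.2, h1.2⟩
  have hfull : ∀ i < P.length, tb U i = true → ∀ w, G.Adj (φ i) w → w ∈ img φ P.length S :=
    fun i hi hUi w hw => full_nb hG hwf hO S i hi (hsub i hUi) (hU i hi hUi).1 w hw
  refine ⟨img φ P.length S, img φ P.length U, clr φ P.length c1, clr φ P.length c2, ?_, ?_, ?_,
    ?_⟩
  · refine ⟨?_, ?_, ?_, ?_, ?_, pre_of hG hwf hO S c1 hp1, pre_of hG hwf hO S c2 hp2⟩
    · intro x hx
      rw [mem_img] at hx ⊢
      obtain ⟨i, hi, hUi, rfl⟩ := hx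
      exact ⟨i, hi, hsub i hUi, rfl⟩
    · intro u hu w hw
      rw [mem_img] at hu
      obtain ⟨i, hi, hUi, rfl⟩ := hu
      exact hfull i hi hUi w hw
    · intro x hx
      by_cases hxi : ∃ i < P.length, φ i = x
      · obtain ⟨i, hi, rfl⟩ := hxi
        rw [clr_apply hO c1 i hi, clr_apply hO c2 i hi]
        rw [img_mem hO U i hi] at hx
        exact hagr i (by simpa using hx)
      · have e : ∀ c, clr φ P.length c x = false := by
          intro c
          unfold clr
          rw [decide_eq_false_iff_not]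
          rintro ⟨i, hi, he, _⟩
          exact hxi ⟨i, hi, he⟩
        rw [e, e]
    · intro u hu b hb hbU hub heq
      rw [mem_img] at hu hb
      obtain ⟨i, hi, hUi, rfl⟩ := hu
      obtain ⟨j, hj, hSj, rfl⟩ := hb
      have := (MA_iff hwf hO S c1 i j hi hj (hsub i hUi) hSj).1 ⟨hub, heq⟩
      exact hbU ((img_mem hO U j hj).2 ((hU i hi hUi).2.1 j this))
    · intro u hu b hb hbU hub heq
      rw [mem_img] at hu hb
      obtain ⟨i, hi, hUi, rfl⟩ := hu
      obtain ⟨j, hj, hSj, rfl⟩ := hb
      have := (MA_iff hwf hO S c2 i j hi hj (hsub i hUi) hSj).1 ⟨hub, heq⟩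
      exact hbU ((img_mem hO U j hj).2 ((hU i hi hUi).2.2 j this))
  · intro x hx
    rw [mem_img] at hx
    obtain ⟨i, hi, _, rfl⟩ := hx
    exact hO.ball i hi
  · refine le_trans (le_trans Finset.card_image_le (Finset.card_filter_le _ _)) ?_
    rw [Finset.card_range]
    exact hlen
  · unfold diff gdiff
    rw [st_img hwf hO S U c1 hsub hfull fun i hi hUi => (hU i hi hUi).2.1,
      st_img hwf hO S U c2 hsub hfull fun i hi hUi => (hU i hi hUi).2.2]
    rfl

end

end Pool.Agent.Work.MP_1e13ac_Bis.h63
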