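import Pool.Agent.Work.MP_1e13ac_Bis.Checker

/-!
# Semantics of the list functions of the checker
-/

set_option autoImplicit false

namespace Pool.Agent.Work.MP_1e13ac_Bis.h63

open Pool.Agent.Work.MP_1e13ac_Bis

theorem tb_eq (x i : ℕ) : tb x i = x.testBit i := by
  unfold tb
  rw [Nat.testBit_eq_decide_div_mod_eq]
  have h : Nat.shiftRight x i = x / 2 ^ i := Nat.shiftRight_eq_div_pow x i
  rw [h]
  rcases Nat.mod_two_eq_zero_or_one (x / 2 ^ i) with h0 | h0
  · have : Nat.mod (x / 2 ^ i) 2 = 0 := h0
    rw [this, h0]; rfl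
  · have : Nat.mod (x / 2 ^ i) 2 = 1 := h0
    rw [this, h0]; rfl

theorem memB_iff (x : ℕ) (l : List ℕ) : memB x l = true ↔ x ∈ l := by
  induction l with
  | nil => simp [memB]
  | cons y t ih => simp [memB, ih]

theorem nodupB_iff (l : List ℕ) : nodupB l = true ↔ l.Nodup := by
  induction l with
  | nil => simp [nodupB]
  | cons y t ih =>
    have h := memB_iff y t
    cases hm : memB y t
    · have : y ∉ t := fun h' => by rw [← h, hm] at h'; exact absurd h' (by simp)
      simp [nodupB, ih, hm, this]
    · have : y ∈ t := h.1 hm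
      simp [nodupB, hm, this]

theorem gl_getD (L : List (List ℕ)) (i : ℕ) : gl L i = L.getD i [] := by
  induction L generalizing i with
  | nil => cases i <;> simp [gl]
  | cons l t ih =>
    cases i with
    | zero => simp [gl]
    | succ n => simp [gl, ih]

theorem gn_getD (L : List ℕ) (i : ℕ) : gn L i = L.getD i 0 := by
  induction L generalizing i with
  | nil => cases i <;> simp [gn]
  | cons l t ih =>
    cases i with
    | zero => simp [gn]
    | succ n => simp [gn, ih]

theorem gp_getD (L : List (List (List ℕ))) (i : ℕ) : gp L i = L.getD i [] := by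
  induction L generalizing i with
  | nil => cases i <;> simp [gp]
  | cons l t ih =>
    cases i with
    | zero => simp [gp]
    | succ n => simp [gp, ih]

theorem gl_out (L : List (List ℕ)) (i : ℕ) (h : L.length ≤ i) : gl L i = [] := by
  rw [gl_getD]
  exact List.getD_eq_default _ _ h

theorem allIdx_iff (f : ℕ → List ℕ → Bool) (k : ℕ) (L : List (List ℕ)) :
    allIdx f k L = true ↔ ∀ i < L.length, f (k + i) (gl L i) = true := by
  induction L generalizing k with
  | nil => simp [allIdx]
  | cons l t ih =>
    rw [allIdx, Bool.and_eq_true, ih]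
    constructor
    · rintro ⟨h0, h1⟩ i hi
      cases i with
      | zero => simpa [gl] using h0
      | succ n =>
        have := h1 n (by simpa using hi)
        rw [show k + (n + 1) = k + 1 + n by omega]
        simpa [gl] using this
    · intro h
      refine ⟨by simpa [gl] using h 0 (by simp), fun i hi => ?_⟩
      have := h (i + 1) (by simpa using hi)
      rw [show k + (i + 1) = k + 1 + i by omega] at this
      simpa [gl] using this

theorem allIdx_zero (f : ℕ → List ℕ → Bool) (L : List (List ℕ)) :
    allIdx f 0 L = true ↔ ∀ i < L.length, f i (gl L i) = true := by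
  rw [allIdx_iff]
  simp

theorem mem_filtC (S c : ℕ) (b : Bool) (l : List ℕ) (j : ℕ) :
    j ∈ filtC S c b l ↔ j ∈ l ∧ tb S j = true ∧ tb c j = b := by
  induction l with
  | nil => simp [filtC]
  | cons y t ih =>
    rw [filtC]
    split_ifs with h
    · rw [Bool.and_eq_true, beq_iff_eq] at h
      rw [List.mem_cons, List.mem_cons, ih]
      constructor
      · rintro (rfl | h')
        · exact ⟨Or.inl rfl, h.1, h.2⟩
        · exact ⟨Or.inr h'.1, h'.2⟩
      · rintro ⟨rfl | h1, h2⟩
        · exact Or.inl rfl
        · exact Or.inr ⟨h1, h2⟩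
    · rw [Bool.and_eq_true, beq_iff_eq] at h
      rw [List.mem_cons, ih]
      constructor
      · rintro ⟨h1, h2⟩
        exact ⟨Or.inr h1, h2⟩
      · rintro ⟨rfl | h1, h2⟩
        · exact absurd h2 h
        · exact ⟨h1, h2⟩

theorem nodup_filtC (S c : ℕ) (b : Bool) (l : List ℕ) (h : l.Nodup) : (filtC S c b l).Nodup := by
  induction l with
  | nil => simp [filtC]
  | cons y t ih =>
    rw [List.nodup_cons] at h
    rw [filtC]
    split_ifs with h1
    · rw [List.nodup_cons, mem_filtC]
      exact ⟨fun h2 => h.1 h2.1, ih h.2⟩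
    · exact ih h.2

theorem mem_filtS (S : ℕ) (l : List ℕ) (j : ℕ) :
    j ∈ filtS S l ↔ j ∈ l ∧ tb S j = true := by
  induction l with
  | nil => simp [filtS]
  | cons y t ih =>
    rw [filtS]
    split_ifs with h
    · rw [List.mem_cons, List.mem_cons, ih]
      constructor
      · rintro (rfl | h')
        · exact ⟨Or.inl rfl, h⟩
        · exact ⟨Or.inr h'.1, h'.2⟩
      · rintro ⟨rfl | h1, h2⟩
        · exact Or.inl rfl
        · exact Or.inr ⟨h1, h2⟩
    · rw [List.mem_cons, ih]
      constructor
      · rintro ⟨h1, h2⟩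
        exact ⟨Or.inr h1, h2⟩
      · rintro ⟨rfl | h1, h2⟩
        · exact absurd h2 h
        · exact ⟨h1, h2⟩

theorem nodup_filtS (S : ℕ) (l : List ℕ) (h : l.Nodup) : (filtS S l).Nodup := by
  induction l with
  | nil => simp [filtS]
  | cons y t ih =>
    rw [List.nodup_cons] at h
    rw [filtS]
    split_ifs with h1
    · rw [List.nodup_cons, mem_filtS]
      exact ⟨fun h2 => h.1 h2.1, ih h.2⟩
    · exact ih h.2

theorem length_mono (S c : ℕ) (k : ℕ) (L : List (List ℕ)) : (mono S c k L).length = L.length := by
  induction L generalizing k with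
  | nil => simp [mono]
  | cons l t ih => simp [mono, ih]

theorem length_restr (S : ℕ) (k : ℕ) (L : List (List ℕ)) : (restr S k L).length = L.length := by
  induction L generalizing k with
  | nil => simp [restr]
  | cons l t ih => simp [restr, ih]

theorem gl_mono (S c : ℕ) (k : ℕ) (L : List (List ℕ)) (i : ℕ) (h : i < L.length) :
    gl (mono S c k L) i = if tb S (k + i) then filtC S c (tb c (k + i)) (gl L i) else [] := by
  induction L generalizing k i with
  | nil => simp at h
  | cons l t ih =>
    cases i with
    | zero => simp [mono, gl]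
    | succ n =>
      rw [mono, gl, gl, ih (k + 1) n (by simpa using h), show k + 1 + n = k + (n + 1) by omega]

theorem gl_restr (S : ℕ) (k : ℕ) (L : List (List ℕ)) (i : ℕ) (h : i < L.length) :
    gl (restr S k L) i = if tb S (k + i) then filtS S (gl L i) else [] := by
  induction L generalizing k i with
  | nil => simp at h
  | cons l t ih =>
    cases i with
    | zero => simp [restr, gl]
    | succ n =>
      rw [restr, gl, gl, ih (k + 1) n (by simpa using h), show k + 1 + n = k + (n + 1) by omega]

theorem gl_mono0 (S c : ℕ) (L : List (List ℕ)) (i : ℕ) (h : i < L.length) (hS : tb S i = true) :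
    gl (mono S c 0 L) i = filtC S c (tb c i) (gl L i) := by
  rw [gl_mono S c 0 L i h, Nat.zero_add, if_pos hS]

theorem gl_restr0 (S : ℕ) (L : List (List ℕ)) (i : ℕ) (h : i < L.length) (hS : tb S i = true) :
    gl (restr S 0 L) i = filtS S (gl L i) := by
  rw [gl_restr S 0 L i h, Nat.zero_add, if_pos hS]

/-- the content of `wf` -/
theorem wf_iff (P : List (List ℕ)) : wf P = true ↔ ∀ i < P.length, (gl P i).Nodup ∧
    (gl P i).length ≤ 3 ∧ ∀ j ∈ gl P i, j < P.length ∧ j ≠ i ∧ i ∈ gl P j := by
  unfold wf
  rw [allIdx_zero]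
  refine forall_congr' fun i => forall_congr' fun _ => ?_
  rw [Bool.and_eq_true, Bool.and_eq_true, nodupB_iff, List.all_eq_true, and_assoc]
  refine and_congr Iff.rfl (and_congr ?_ (forall_congr' fun j => forall_congr' fun _ => ?_))
  · exact ⟨fun h => Nat.le_of_ble_eq_true h, fun h => Nat.ble_eq_true_of_le h⟩
  · rw [Bool.and_eq_true, Bool.and_eq_true, memB_iff, and_assoc]
    refine and_congr ?_ (and_congr ?_ Iff.rfl)
    · exact ⟨fun h => Nat.lt_of_lt_of_le (Nat.lt_succ_self _) (Nat.le_of_ble_eq_true h),
        fun h => Nat.ble_eq_true_of_le h⟩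
    · cases hb : Nat.beq j i
      · exact ⟨fun _ => Nat.ne_of_beq_eq_false hb, fun _ => rfl⟩
      · exact ⟨fun h => absurd h (by simp), fun h => absurd (Nat.eq_of_beq_eq_true hb) h⟩

end Pool.Agent.Work.MP_1e13ac_Bis.h63
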